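import Pool.Agent.R919.TR.Tate

/-!
# The smallest subtorsor for the product of an arbitrary variety and elliptic curves

Let `c o` be the matrix of the comparison isomorphism of an arbitrary smooth projective variety `X`
over the field of algebraic numbers (all degrees), and let `c j`, `j ≠ o`, be the period matrices
of the first cohomology groups of pairwise non-isogenous elliptic curves `E_j` without complex
multiplication. Let `Ω(M)` be the smallest subtorsor of the torsor of the isomorphisms of
`H_dR(M)` and `H_B(M)` which is defined over the algebraic numbers and contains the comparison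
isomorphism. It contains its Zariski closure `Z_M` and is contained in the motivic torsor of
periods, so the conjecture of Grothendieck implies that it is equal to the motivic torsor.

The theorem: there is a set `S` of at most `b(X) / 2` indices such that for all finite nonempty
sets of indices outside `S`

`Ω(h(X) ⊕ ⨁ h^1(E_j)) = {(y, (x_j)) | (y, z) ∈ Ω(h(X) ⊕ ℚ(-1)), det x_j = a_j z}`,

where `det c_j = a_j 2 π i`. So it is the fibre product over the torsor `Ω(ℚ(-1))` of the torsor for
`X` and of the full torsors of the elliptic curves. Hence if `Ω(h(X) ⊕ ℚ(-1))` is the motivic torsor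
then the same is true for the products of the powers of `X` and of the `E_j`.
-/

open Matrix

namespace Pool.Agent.Results.MP_77d3f5_ag.FewExceptionalTorsors

open Pool.Agent.R919.TR

theorem result {J : Type} [DecidableEq J] {B : J → Type} [∀ j, Fintype (B j)]
    [∀ j, DecidableEq (B j)] {t : ℂ} (ht : t ≠ 0) (c : ∀ j, Matrix (B j) (B j) ℂ)
    (hc : ∀ j, IsUnit (c j).det) (o : J) (Q R : Matrix (B o) (B o) ℂ)
    (hQa : ∀ a b, IsAlgebraic ℚ (Q a b)) (hQu : Q.det ≠ 0)
    (hR : ∀ a b, IsAlgebraic ℚ (R a b)) (w : ℤ) (hQ : (c o)ᵀ * Q * c o = t ^ w • R)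
    (h1 : ∀ j, j ≠ o → IsEll t (c j))
    (h2 : ∀ i j, i ≠ o → j ≠ o → i ≠ j → NoHm (c i) (c j)) :
    ∃ S : Finset J, o ∉ S ∧ 2 * S.card ≤ Fintype.card (B o) ∧
      ∀ (ι : Type) [Fintype ι] [DecidableEq ι] [Nonempty ι] (f : ι → J), Function.Injective f →
        (∀ i, f i ≠ o) → (∀ i, f i ∉ S) →
          Omega Qb (blocks (c o) fun i => c (f i)) = {X | ∃ y x z, X = blocks y x ∧
            (∀ i, (x i).det = (c (f i)).det / t * z) ∧
            blocks y (ones fun _ : Unit => z) ∈
              Omega Qb (blocks (c o) (ones fun _ : Unit => t))} :=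
  main_tate ht c hc o Q R hQa hQu hR w hQ h1 h2

end Pool.Agent.Results.MP_77d3f5_ag.FewExceptionalTorsors
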