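import Pool.Agent.R918.MidMat

set_option autoImplicit false

/-!
# The Zariski closure of the comparison isomorphism of abelian varieties of generalized Mumford type

Let `A` be an abelian variety of dimension `g` over the field `ℚ̄` of algebraic numbers, and let
`c : H^1_dR(A / ℚ̄) ⊗ ℂ → H^1(A, ℚ) ⊗ ℂ` be the comparison isomorphism, given by the periods. Let `Z_A`
be its Zariski closure over `ℚ̄`, in the space of the isomorphisms (`zariskiClosure`). (The cohomology of
`A` is the exterior algebra of `H^1`, so that this is the closure `Z_A` of the problem.) The conjecture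
of Grothendieck says that `Z_A` is the motivic torsor of periods. It implies that `Z_A` is contained in
no torsor over `ℚ̄` of an algebraic group `G ⊆ GL(H^1(A, ℚ))` over `ℚ`, unless `G` contains the
Mumford-Tate group of `A`.

**Theorem.** Assume that the complex Lie algebra `𝔤 ⊗ ℂ` of the Hodge group of `A` is a sum of `k`
copies `sl(W_1), …, sl(W_k)` of `sl(n)`, `n = 2 m` even, which acts on `H_1(A, ℂ)` by a sum of copies of
the tensor product of the middle exterior powers `Λ^m W_1 ⊗ … ⊗ Λ^m W_k` (`TypeMiddle`). Let `G` be an
algebraic subgroup of `GL(H^1(A, ℚ))`, defined over `ℚ`, and let `P` be a torsor of `G`, defined over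
`ℚ̄`, in the space of the isomorphisms, which contains `Z_A`. Then `G` contains the Mumford-Tate group
of `A`.

So the smallest such torsor is the torsor of the Mumford-Tate group (the torsor of the isomorphisms
compatible with all Hodge classes on the powers of `A`; it is the torsor of motivated periods by the
theorems of Deligne and André, and the motivic torsor if the Hodge classes on the powers of `A` are
algebraic), and all de Rham-Betti classes on the powers of `A` are Hodge classes.

The group `G` is not assumed to be reductive, and no relation between `G` and the Hodge classes is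
assumed. Nothing is assumed about the periods: `AbVar` is the description of an abelian variety over
`ℚ̄` by theta functions (see `Pool/Agent/Y102/AVDefs.lean`), and all theorems about transcendental
numbers which are used (the theorem of Schneider and Lang, the transcendence of `π`) are proved in this
repository.

## Examples

The pairs `(sl(2m), Λ^m)` are, besides the spin representations and the standard representations of the
symplectic Lie algebras, the minuscule self-dual representations which occur as Hodge structures of
abelian varieties (Serre, Deligne, Satake). The case `m = 1` contains Mumford's fourfolds (`k = 3`) and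
is not new. For `m = 2`, `k = 1` one gets the simple abelian varieties of dimension six with
multiplication by a definite quaternion algebra over `ℚ` (type III in the list of Albert) with the
largest possible Hodge group, a form of `SO(6)`. For `m = 3`, `k = 1` one gets abelian varieties of
dimension ten with endomorphism ring `ℤ`, whose Hodge group is a form of the image of `SL(6)` in
`Sp(20)` (`SU(5, 1)` acting on the third exterior power); in general for odd `m` there are abelian
varieties of dimension `binom(2m, m) / 2` with endomorphism ring `ℤ`, which are the exceptions in the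
theorem of Pink on the Mumford-Tate conjecture, and for `k > 1` the analogous families over totally real
fields.

## Proof

The Lie algebra of `G` is defined over `ℚ` and stable under linear maps, so it contains the rational
components of all logarithmic derivatives of the period matrix. By the theorem of Schneider and Lang
(see `Pool/Agent/R917` and `Pool/Agent/Y102`) one obtains a Lie subalgebra `𝔮` of `𝔤` which acts
semisimply on `H_1(A, ℚ)` and has the same commutant as `𝔤`. The following statement is needed
(`Pool.Agent.R918.MidHyp.all_mem`), whose proof does not use the classification of semisimple Lie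
algebras or the theorem of Dynkin on their irreducible subalgebras.

Let `𝔥` be a Lie subalgebra of `𝔤_ℂ = sl(W_1) + … + sl(W_k)` which generates the same associative
algebra on the middle part `V` of the Fock space `U = Λ(W_1 + … + W_k) ⊗ (multiplicities)`. Then
`𝔥 = 𝔤_ℂ`.

1. The radical of `𝔥` acts by scalars on a nonzero `𝔥`-stable subspace of `V`, which is stable under
   `𝔤_ℂ`; only zero can act as a scalar on such a subspace. So `𝔥` is semisimple.
2. The operators `X ↦ ∑ a_i X b_i` and `X ↦ ∑ b_i X a_i` (sums over the creation and annihilation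
   operators of one colour) and the particle numbers define an action of `sl(2)` on `End U`, which
   commutes with the adjoint action of `𝔥`; the zero weight space corresponds to the middle exterior
   power. As `sl(2)` acts injectively towards the middle, the commutant of `𝔥` in the operators which
   preserve the particle numbers is the commutant of `𝔤_ℂ` on all of `U`, if this is true on `V`.
3. By the theorem of Weyl on complete reducibility (proved in `Pool/Agent/R918/Weyl.lean`) it follows
   that all subspaces of `U` which are stable under `𝔥` and the particle numbers are stable under `𝔤_ℂ`.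
   So `𝔥` is irreducible on all exterior powers, for each colour.
4. A combinatorial argument on the weights shows that such a semisimple Lie algebra contains the
   elementary matrices in a suitable basis, as `n` is even (`Pool.Agent.R918.exists_units`).
-/

open Module Matrix Pool.Agent.Y102 Pool.Agent.W516.DR Pool.Agent.H204R3.GP

noncomputable section

namespace Pool.Agent.Results.MP_77d3f5_ag.MiddleExteriorTorsors

variable {g : ℕ} (A : AbVar g)

/-! ### The hypothesis on the Lie algebra of the Hodge group -/

/-- The multilinear forms in `2m` variables in the rational homology. -/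
abbrev Form (m : ℕ) : Type := MultilinearMap ℚ (fun _ : Fin m × Fin 2 => A.H1) ℚ

/-- `φ` is a de Rham-Betti class in `H^1(A) ^ {⊗ 2m} (m)`. -/
def IsDRB {m : ℕ} (φ : Form A m) : Prop :=
  IsDeRhamBettiForm QBar A.dR (2 * Real.pi * Complex.I) m φ

/-- `φ` is a Hodge class in `H^1(A) ^ {⊗ 2m} (m)`. -/
def IsHodge {m : ℕ} (φ : Form A m) : Prop := IsHodgeTensor (A.per : A.H1 →+ (Fin g → ℂ)) φ

/-- The endomorphism `X` annihilates the form `φ` (as a derivation). -/
def Annihilates {m : ℕ} (X : Module.End ℚ A.H1) (φ : Form A m) : Prop :=
  ∀ v, ∑ k, φ (Function.update v k (X (v k))) = 0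

/-- `X` is in the Lie algebra `𝔤`: it annihilates all classes that are Hodge classes and
de Rham-Betti classes. -/
def InLie (X : Module.End ℚ A.H1) : Prop :=
  ∀ (m : ℕ) (φ : Form A m), IsHodge A φ → IsDRB A φ → Annihilates A X φ

/-- The matrix of the extension of an endomorphism of `H_1(A, ℚ)` to `H_1(A, ℂ)`. -/
def toC (X : Module.End ℚ A.H1) : Matrix (Fin (2 * g)) (Fin (2 * g)) ℂ :=
  Matrix.of fun i j => (X (Pi.single j 1) i : ℂ)

/-- The complex Lie algebra `𝔤 ⊗ ℂ`, acting on `H_1(A, ℂ)`. -/
def lieC : Submodule ℂ (Matrix (Fin (2 * g)) (Fin (2 * g)) ℂ) :=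
  Submodule.span ℂ {Y | ∃ X, InLie A X ∧ Y = toC A X}

/-- The canonical anticommutation relations for the creation operators `a σ i` and the annihilation
operators `b σ i` on `ℂ ^ N`, where `σ < k` is the colour and `i < n`. -/
def Car {N k n : ℕ} (a b : Fin k → Fin n → Matrix (Fin N) (Fin N) ℂ) : Prop :=
  (∀ σ i τ j, a σ i * a τ j = -(a τ j * a σ i)) ∧
  (∀ σ i τ j, b σ i * b τ j = -(b τ j * b σ i)) ∧
  ∀ σ i τ j, a σ i * b τ j + b τ j * a σ i = if σ = τ ∧ i = j then 1 else 0

/-- The action of the matrix `x` in `gl(n)` for the colour `σ`. For `x = 1` it is the number of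
particles of the colour `σ`. -/
def act {N k n : ℕ} (a b : Fin k → Fin n → Matrix (Fin N) (Fin N) ℂ) (σ : Fin k)
    (x : Matrix (Fin n) (Fin n) ℂ) : Matrix (Fin N) (Fin N) ℂ :=
  ∑ i, ∑ j, x i j • (a σ i * b σ j)

/-- **Middle exterior type.** `H_1(A, ℂ)` is identified (by the injective map `Q`, with the left
inverse `P`) with the space of the vectors with exactly `m` particles of each of the `k` colours in a
representation `ℂ ^ N` of the canonical anticommutation relations with `2m` creation operators for each
colour, that is, with a sum of copies of the tensor product of the `m`-th exterior powers of `k` vector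
spaces of dimension `2m`, and `𝔤 ⊗ ℂ` is the sum of the `k` Lie algebras `sl(2m)`. -/
def TypeMiddle : Prop :=
  ∃ (N k m : ℕ) (a b : Fin k → Fin (2 * m) → Matrix (Fin N) (Fin N) ℂ)
    (P : Matrix (Fin (2 * g)) (Fin N) ℂ) (Q : Matrix (Fin N) (Fin (2 * g)) ℂ),
    Car a b ∧ P * Q = 1 ∧
    (∀ v, (∃ w, v = Q.mulVec w) ↔ ∀ σ, (act a b σ 1).mulVec v = (m : ℂ) • v) ∧
    lieC A = Submodule.span ℂ {Y | ∃ σ x, Matrix.trace x = 0 ∧ Y = P * act a b σ x * Q}

/-! ### Algebraic groups, periods and the Mumford-Tate group -/

/-- A subgroup of `GL_R(ℂ)` defined by polynomials with rational coefficients. -/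
def IsAlgebraicSubgroup {R : Type} [Fintype R] [DecidableEq R] (G : Subgroup (GL R ℂ)) : Prop :=
  ∃ I : Set (MvPolynomial (R × R) ℚ), ∀ x : GL R ℂ, x ∈ G ↔
    ∀ p ∈ I, MvPolynomial.aeval (fun b : R × R => (x : Matrix R R ℂ) b.1 b.2) p = 0

/-- The comparison isomorphism: the periods of the basis of `H^1_dR(A / ℚ̄)` (the columns) on the
basis of the lattice (the rows). -/
def periodMatrix : Matrix (Fin (2 * g)) (Fin g ⊕ Fin g) ℂ :=
  Matrix.of fun j i => A.dR i (Pi.single j 1)

/-- The matrix `F` describes an isomorphism from `H^1_dR(A / ℚ̄) ⊗ ℂ` to `H^1(A, ℂ)`. -/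
def IsIso {g : ℕ} (F : Matrix (Fin (2 * g)) (Fin g ⊕ Fin g) ℂ) : Prop :=
  ∃ F' : Matrix (Fin g ⊕ Fin g) (Fin (2 * g)) ℂ, F * F' = 1

/-- The complex points of `Z_A`, the Zariski closure over `ℚ̄` of the comparison isomorphism: the
isomorphisms which satisfy all polynomial relations with algebraic coefficients between the periods. -/
def zariskiClosure : Set (Matrix (Fin (2 * g)) (Fin g ⊕ Fin g) ℂ) :=
  {F | IsIso F ∧ ∀ p : MvPolynomial (Fin (2 * g) × (Fin g ⊕ Fin g)) QBar,
    MvPolynomial.aeval (fun b => periodMatrix A b.1 b.2) p = 0 →
      MvPolynomial.aeval (fun b => F b.1 b.2) p = 0}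

/-- The torsor `G · T⁻¹` of `G`: the isomorphisms `F` such that `F T` is an element of `G`. It is
defined over `ℚ̄` if `T` is a matrix with algebraic entries. -/
def torsor {g : ℕ} (G : Subgroup (GL (Fin (2 * g)) ℂ))
    (T : Matrix (Fin g ⊕ Fin g) (Fin (2 * g)) ℂ) : Set (Matrix (Fin (2 * g)) (Fin g ⊕ Fin g) ℂ) :=
  {F | ∃ x ∈ G, (x : Matrix (Fin (2 * g)) (Fin (2 * g)) ℂ) = F * T}

/-- The Hodge structure of `H^1(A)`: the complex number `z` acts on `H_1(A, ℝ) = ℂ ^ g` by
multiplication, and on `H^1(A, ℝ)` by the transposed map, here in the basis of `H^1(A, ℚ)` which is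
dual to the basis of the lattice. -/
def hodge (z : ℂ) : Matrix (Fin (2 * g)) (Fin (2 * g)) ℂ :=
  Matrix.of fun i j => ((A.lam.repr (z • A.lam i) j : ℝ) : ℂ)

/-- The Mumford-Tate group of `H^1(A)`: the smallest algebraic group over `ℚ` which contains the
image of the Deligne torus. -/
def mumfordTate : Subgroup (GL (Fin (2 * g)) ℂ) :=
  sInf {G | IsAlgebraicSubgroup G ∧ ∀ z : ℂ, z ≠ 0 → ∃ x ∈ G,
    (x : Matrix (Fin (2 * g)) (Fin (2 * g)) ℂ) = hodge A z}

theorem isIso_periodMatrix : IsIso (periodMatrix A) := by
  obtain ⟨P', h1, -⟩ := Pool.Agent.R917.exists_inv A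
  refine ⟨P'.submatrix (Pool.Agent.R917.eqv g) id, ?_⟩
  have h2 : Pool.Agent.R917.PM A * P' = periodMatrix A *
      P'.submatrix (Pool.Agent.R917.eqv g) id := by
    have h3 : P' = (P'.submatrix (Pool.Agent.R917.eqv g) id).submatrix
        (Pool.Agent.R917.eqv g).symm id := by
      ext i j
      simp
    conv_lhs => rw [h3]
    unfold Pool.Agent.R917.PM
    rw [Matrix.submatrix_mul_equiv, Matrix.submatrix_id_id]
    rfl
  rw [← h2, h1]

/-- **Theorem.** Let `A` be an abelian variety of middle exterior type. If the Zariski closure of the
comparison isomorphism is contained in a torsor over `ℚ̄` of an algebraic group `G` over `ℚ`, then `G`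
contains the Mumford-Tate group of `A`. -/
theorem result (g : ℕ) (A : AbVar g) (h : TypeMiddle A) (G : Subgroup (GL (Fin (2 * g)) ℂ))
    (hG : IsAlgebraicSubgroup G) (T : Matrix (Fin g ⊕ Fin g) (Fin (2 * g)) ℂ)
    (hT : ∀ i j, IsAlgebraic ℚ (T i j)) (hZ : zariskiClosure A ⊆ torsor G T) :
    mumfordTate A ≤ G := by
  obtain ⟨N, k, m, a, b, P, Q, ⟨h1, h2, h3⟩, hPQ, hQ, hl⟩ := h
  obtain ⟨x, hx, hxT⟩ := hZ (show periodMatrix A ∈ zariskiClosure A from
    ⟨isIso_periodMatrix A, fun p hp => hp⟩)
  have hpt := Pool.Agent.R917.pt_of (A := A) hG hT hx hxT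
  obtain ⟨l1, l2⟩ := Pool.Agent.R918.middle_lie' h1 h2 h3 hPQ hQ hl hpt
  refine sInf_le ⟨hG, fun z hz => ?_⟩
  exact Pool.Agent.R917.hm_mem hpt.grp l1 l2 hz

end Pool.Agent.Results.MP_77d3f5_ag.MiddleExteriorTorsors
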