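import Pool.Agent.R920.PD.Main

/-!
# The proportion of the motivic periods which are linearly independent

Let `X` be a smooth projective variety over the field `F` of algebraic numbers (with nonzero
cohomology). Let `p n` be the dimension of the space over `F` spanned by the periods of `X ^ n` and
`f n` the dimension of the space of the motivic periods of `X ^ n`, the functions on the motivic
torsor of periods of `X`, defined by all algebraic cycles on all powers of `X`, which are given by
the matrix coefficients in the cohomology of `X ^ n`. The quotient `f n / p n` converges to an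
element `N` of `{1, 2, …, ∞}`, and `N = 1` if and only if the Grothendieck period conjecture holds
for `X`, that is, if the comparison isomorphism is a generic point of the motivic torsor of periods.
Thus the conjecture holds for `X` as soon as asymptotically more than one half of the motivic
periods of the powers `X ^ n` are linearly independent.

This is effective: if not all linear relations between the periods of `X ^ d` are motivic then
`f n ≥ (2 - 2 d b / (n + 1)) p n` for all `n`, where `b` is the number of linearly independent
periods of `X`. If the torsor is connected then even `(n + 1) p n ≤ 3 d b f n` for all `n`.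
-/

open CategoryTheory AlgebraicGeometry Module

universe u v

namespace Pool.Agent.Results.MP_77d3f5_ag.ProportionLaw

open Pool.Agent.H914 Pool.Agent.H914.VarClass Pool.Agent.H914.VarClass.Obj
  Pool.Agent.H914.WeilCohomology Pool.Agent.Y133.Per Pool.Agent.R920.PD
open Pool.Agent.Y133.Half (pw HasIndex)

variable {k : Type u} [Field k] {𝒱 : VarClass k} {ops : CycleOps 𝒱}

/-- **The law for the proportion of the motivic periods which are linearly independent.** -/
theorem result (W : WeilCohomology.{u, v} ops) [Algebra W.K ℂ] {F : Subfield ℂ} [IsAlgClosed F]
    (D : DeRham W F) (X : 𝒱.Obj) [Nontrivial (W.H X)] (p f : ℕ → ℕ)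
    (hp : ∀ n, p n = finrank F (periods D (pw X n)))
    (hf : ∀ n, f n = finrank F (formalPeriods D (algClasses W) X n)) :
    ∃ N : ℕ∞, 1 ≤ N ∧ HasIndex f p N ∧ (∀ r : ℕ, N = r → ∀ n, f n ≤ r * p n) ∧
      (N = 1 ↔ PeriodConjecture D (algClasses W) X) ∧
      (∀ d n, p d = f d ∨ ((2 : ℝ) - 2 * (d + 1) * p 0 / (n + 2)) * p n ≤ f n) ∧
      (Irreducible D (algClasses W) X →
        ∀ d n, p d = f d ∨ (n + 2) * p n ≤ 3 * (d + 1) * p 0 * f n) :=
  periods_law (C := algClasses W) D ⟨_, X.V.fundCycle_mem, W.cl_fund X⟩ p f hp hf

end Pool.Agent.Results.MP_77d3f5_ag.ProportionLaw
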