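import Pool.Agent.R913.Tor.Frm

/-!
# MP_77d3f5_ag: when is the Zariski closure of the period point a torsor?

The period conjecture `Z_X = Ω_X^mot` contains the statement that the Zariski closure `Z_X` of the comparison
isomorphism `c` is a torsor.  Here is an exact criterion for this first half of the conjecture.

Let `K` be an algebraically closed subfield of `ℂ` (for instance the field of the algebraic numbers) and let `c` be
any invertible complex matrix, for instance the matrix of the comparison isomorphism of a smooth projective variety
over `K` in `K`-bases.  Consider the matrix `ω = dc c⁻¹` whose entries are Kähler differentials of `ℂ` over `K`, and
the number `h(c)` (`numForms K c`) of its entries which are linearly independent over `K`.  This is a bound of linear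
nature: only linear relations with coefficients in `K` between the entries of `ω` are counted.

**Theorem.**
1. The transcendence degree over `K` of the entries of `c` is at most `h(c)`.
2. It is equal to `h(c)` if and only if the Zariski closure of `c` over `K` in `GL_N` is a torsor (closed under
   `x y⁻¹ z`).
3. `h(c)` is at most the dimension of every torsor `S` which contains `c` and is defined over `K`, for instance of the
   motivic torsor of periods.

As the transcendence degree is the number of the entries of `ω` which are linearly independent over `ℂ`, part 2 says:
the Zariski closure of the period point is a torsor if and only if all linear relations over `ℂ` between the entries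
of `dc c⁻¹` are consequences of the linear relations over `K`.  In particular, the period conjecture for a connected
motivic torsor `S` holds if and only if the two inequalities `trdeg ≤ h(c)` and `h(c) ≤ dim S` are equalities.  For a
diagonal matrix `c`, `h(c)` is the rank of the group generated by its entries modulo the non-zero elements of `K`
(Rosenlicht), and the criterion is the well-known one for tori.
-/

set_option autoImplicit false

namespace Pool.Agent.Results.MP_77d3f5_ag.TorsorForms

open Matrix Pool.Agent.R913.Tor Pool.Agent.TH127.PT

/-- **The Zariski closure of the period point is a torsor if and only if the transcendence degree is the number of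
the entries of `dc c⁻¹` which are linearly independent over `K`.** -/
theorem result (K : Subfield ℂ) [IsAlgClosed K] {N : Type} [Fintype N] [DecidableEq N]
    (c : Matrix N N ℂ) (hc : IsUnit c) :
    Algebra.trdeg K (Algebra.adjoin K (Set.range fun b : N × N => c b.1 b.2)) ≤ (numForms K c : Cardinal) ∧
    (Algebra.trdeg K (Algebra.adjoin K (Set.range fun b : N × N => c b.1 b.2)) = (numForms K c : Cardinal) ↔
      IsTorsor (Zar K c)) ∧
    ∀ S : Set (Matrix N N ℂ), IsSubtorsor K S → c ∈ S → numForms K c ≤ Module.finrank ℂ (LM S) :=
  forms_criterion hc

end Pool.Agent.Results.MP_77d3f5_ag.TorsorForms
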